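import Pool.Agent.Helper78.KD.Defs
import Pool.Agent.Helper59.MF.Law

/-!
# GPL, block L1: the discrepancy of a sequence with a law converges to the discrepancy of the law
-/

set_option autoImplicit false
open MeasureTheory Set Filter Topology

namespace Pool.Agent.Helper24.GPL

lemma law_f {u : ℕ → ℝ} {g : ℝ → ℝ} (h : Pool.Agent.Helper59.MF.HasLaw u g) {f : ℝ → ℝ} (hf : Continuous f) (h01 : f 0 = f 1) :
    Tendsto (fun N : ℕ => (∑ n ∈ Finset.range N, f (Int.fract (u n))) / N) atTop (𝓝 (∫ t in (0:ℝ)..1, f t * g t)) := by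
  have hc : Continuous (fun x => f (Int.fract x)) := ContinuousOn.comp_fract'' hf.continuousOn h01
  have h2 := h (fun x => f (Int.fract x)) hc (fun x => by simp only [Int.fract_add_one])
  have h3 : (∫ t in (0:ℝ)..1, f (Int.fract t) * g t) = ∫ t in (0:ℝ)..1, f t * g t := by
    refine intervalIntegral.integral_congr fun t ht => ?_
    rw [uIcc_of_le zero_le_one] at ht
    rcases eq_or_lt_of_le ht.2 with h4 | h4
    · show f (Int.fract t) * g t = f t * g t
      rw [h4, Int.fract_one, h01]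
    · show f (Int.fract t) * g t = f t * g t
      rw [Int.fract_eq_self.2 ⟨ht.1, h4⟩]
  rw [h3] at h2
  exact h2

/-- empirical distribution function -/
noncomputable def A (u : ℕ → ℝ) (N : ℕ) (t : ℝ) : ℝ :=
  (((Finset.range N).filter (fun n => Int.fract (u n) < t)).card : ℝ) / N

lemma A_mono (u : ℕ → ℝ) (N : ℕ) {s t : ℝ} (h : s ≤ t) : A u N s ≤ A u N t := by
  unfold A
  refine div_le_div_of_nonneg_right ?_ (Nat.cast_nonneg N)
  exact_mod_cast Finset.card_le_card fun n hn => by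
    rw [Finset.mem_filter] at hn ⊢
    exact ⟨hn.1, hn.2.trans_le h⟩

lemma A_eq (u : ℕ → ℝ) (N : ℕ) (t : ℝ) : A u N t = (∑ n ∈ Finset.range N, if Int.fract (u n) < t then (1:ℝ) else 0) / N := by
  unfold A
  rw [← Finset.sum_filter, Finset.sum_const, nsmul_eq_mul, mul_one]

lemma A_sub (u : ℕ → ℝ) (N : ℕ) {α β : ℝ} (h : α ≤ β) :
    (((Finset.range N).filter (fun n => α ≤ Int.fract (u n) ∧ Int.fract (u n) < β)).card : ℝ) / N = A u N β - A u N α := by
  have h1 : (Finset.range N).filter (fun n => Int.fract (u n) < β) =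
      (Finset.range N).filter (fun n => Int.fract (u n) < α) ∪
        (Finset.range N).filter (fun n => α ≤ Int.fract (u n) ∧ Int.fract (u n) < β) := by
    ext n
    simp only [Finset.mem_filter, Finset.mem_union]
    constructor
    · rintro ⟨h2, h3⟩
      rcases lt_or_ge (Int.fract (u n)) α with h4 | h4
      · exact Or.inl ⟨h2, h4⟩
      · exact Or.inr ⟨h2, h4, h3⟩
    · rintro (⟨h2, h3⟩ | ⟨h2, h3, h4⟩)
      · exact ⟨h2, h3.trans_le h⟩
      · exact ⟨h2, h4⟩
  have h2 : Disjoint ((Finset.range N).filter (fun n => Int.fract (u n) < α))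
      ((Finset.range N).filter (fun n => α ≤ Int.fract (u n) ∧ Int.fract (u n) < β)) := by
    rw [Finset.disjoint_left]
    intro n h3 h4
    rw [Finset.mem_filter] at h3 h4
    exact absurd h3.2 (not_lt.2 h4.2.1)
  unfold A
  rw [h1, Finset.card_union_of_disjoint h2]
  push_cast
  ring

lemma exp_int {η : ℝ} (hη : 0 < η) (a b : ℝ) : ∫ x in a..b, Real.exp (-((x - a) / η)) ≤ η := by
  have hd : ∀ x ∈ uIcc a b, HasDerivAt (fun x => -(η * Real.exp (-((x - a) / η)))) (Real.exp (-((x - a) / η))) x := by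
    intro x _
    have h1 : HasDerivAt (fun x : ℝ => -((x - a) / η)) (-(1 / η)) x := (((hasDerivAt_id x).sub_const a).div_const η).neg
    have h2 := (h1.exp.const_mul η).neg
    refine h2.congr_deriv ?_
    field_simp
  rw [intervalIntegral.integral_eq_sub_of_hasDerivAt hd (by apply Continuous.intervalIntegrable; fun_prop)]
  have := Real.exp_pos (-((b - a) / η))
  simp only [sub_self, zero_div, neg_zero, Real.exp_zero]
  nlinarith

lemma exp_int' {η : ℝ} (hη : 0 < η) (a b : ℝ) : ∫ x in a..b, Real.exp (-((b - x) / η)) ≤ η := by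
  have hd : ∀ x ∈ uIcc a b, HasDerivAt (fun x => η * Real.exp (-((b - x) / η))) (Real.exp (-((b - x) / η))) x := by
    intro x _
    have h1 : HasDerivAt (fun x : ℝ => -((b - x) / η)) (-(-1 / η)) x := (((hasDerivAt_id x).const_sub b).div_const η).neg
    have h2 := h1.exp.const_mul η
    refine h2.congr_deriv ?_
    field_simp
  rw [intervalIntegral.integral_eq_sub_of_hasDerivAt hd (by apply Continuous.intervalIntegrable; fun_prop)]
  have := Real.exp_pos (-((b - a) / η))
  simp only [sub_self, zero_div, neg_zero, Real.exp_zero]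
  nlinarith

/-- upper test function -/
noncomputable def fu (η t x : ℝ) : ℝ := max (min 1 (Real.exp (-((x - t) / η)))) (Real.exp (-((1 - x) / η)))

/-- lower test function -/
noncomputable def fl (η t x : ℝ) : ℝ := (1 - Real.exp (-(x / η))) * max 0 (1 - Real.exp (-((t - x) / η)))

lemma fu_cont (η t : ℝ) : Continuous (fu η t) := by unfold fu; fun_prop
lemma fl_cont (η t : ℝ) : Continuous (fl η t) := by unfold fl; fun_prop

lemma fu_01 {η t : ℝ} (hη : 0 < η) (h0 : 0 ≤ t) : fu η t 0 = fu η t 1 := by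
  have h1 : fu η t 0 = 1 := by
    unfold fu
    have h2 : 1 ≤ Real.exp (-((0 - t) / η)) := Real.one_le_exp (by rw [zero_sub, neg_div, neg_neg]; positivity)
    rw [min_eq_left h2]
    apply max_eq_left
    rw [Real.exp_le_one_iff, sub_zero]
    have : 0 < 1 / η := by positivity
    linarith
  have h2 : fu η t 1 = 1 := by
    unfold fu
    rw [sub_self, zero_div, neg_zero, Real.exp_zero]
    exact max_eq_right (min_le_left _ _)
  rw [h1, h2]

lemma fl_01 {η t : ℝ} (hη : 0 < η) (h1 : t ≤ 1) : fl η t 0 = fl η t 1 := by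
  have h2 : fl η t 0 = 0 := by unfold fl; simp
  have h3 : fl η t 1 = 0 := by
    unfold fl
    have h4 : 1 ≤ Real.exp (-((t - 1) / η)) := Real.one_le_exp (by
      rw [← neg_div]
      exact div_nonneg (by linarith) hη.le)
    rw [max_eq_left (by linarith), mul_zero]
  rw [h2, h3]

lemma ind_le_fu {η t x : ℝ} (hη : 0 < η) : (if x < t then (1:ℝ) else 0) ≤ fu η t x := by
  unfold fu
  split_ifs with h
  · have h1 : 1 ≤ Real.exp (-((x - t) / η)) := Real.one_le_exp (by
      rw [← neg_div]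
      exact div_nonneg (by linarith) hη.le)
    exact (le_min le_rfl h1).trans (le_max_left _ _)
  · exact (Real.exp_pos _).le.trans (le_max_right _ _)

lemma fl_le_ind {η t x : ℝ} (hη : 0 < η) (hx : 0 ≤ x) : fl η t x ≤ (if x < t then (1:ℝ) else 0) := by
  unfold fl
  have h1 : Real.exp (-(x / η)) ≤ 1 := by
    rw [Real.exp_le_one_iff]
    have : 0 ≤ x / η := by positivity
    linarith
  have h1' := Real.exp_pos (-(x / η))
  split_ifs with h
  · have h2 := Real.exp_pos (-((t - x) / η))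
    have h3 : max 0 (1 - Real.exp (-((t - x) / η))) ≤ 1 := max_le zero_le_one (by linarith)
    calc (1 - Real.exp (-(x / η))) * max 0 (1 - Real.exp (-((t - x) / η))) ≤ 1 * 1 :=
          mul_le_mul (by linarith) h3 (le_max_left _ _) zero_le_one
      _ = 1 := one_mul 1
  · have h2 : 1 ≤ Real.exp (-((t - x) / η)) := Real.one_le_exp (by
      rw [← neg_div]
      exact div_nonneg (by linarith) hη.le)
    rw [max_eq_left (by linarith), mul_zero]

lemma int_fu {g : ℝ → ℝ} (hg : Continuous g) (hg0 : ∀ t, 0 ≤ g t) {M : ℝ} (hM0 : 0 ≤ M) (hM : ∀ t, g t ≤ M) {η t : ℝ}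
    (hη : 0 < η) (h0 : 0 ≤ t) (h1 : t ≤ 1) : ∫ x in (0:ℝ)..1, fu η t x * g x ≤ (∫ x in (0:ℝ)..t, g x) + 2 * M * η := by
  have hi : ∀ a b, IntervalIntegrable (fun x => fu η t x * g x) volume a b := fun a b =>
    ((fu_cont η t).mul hg).intervalIntegrable a b
  rw [← intervalIntegral.integral_add_adjacent_intervals (hi 0 t) (hi t 1)]
  have e1 : ∫ x in (0:ℝ)..t, fu η t x * g x ≤ ∫ x in (0:ℝ)..t, g x := by
    refine intervalIntegral.integral_mono_on h0 (hi 0 t) (hg.intervalIntegrable 0 t) fun x hx => ?_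
    have h2 : fu η t x ≤ 1 := by
      unfold fu
      refine max_le (min_le_left _ _) ?_
      rw [Real.exp_le_one_iff]
      have : 0 ≤ (1 - x) / η := div_nonneg (by linarith [hx.2]) hη.le
      linarith
    exact mul_le_of_le_one_left (hg0 x) h2
  have e2 : ∫ x in t..1, fu η t x * g x ≤ M * η + M * η := by
    have h2 : ∫ x in t..1, fu η t x * g x ≤ ∫ x in t..1, (M * Real.exp (-((x - t) / η)) + M * Real.exp (-((1 - x) / η))) := by
      refine intervalIntegral.integral_mono_on h1 (hi t 1) (by apply Continuous.intervalIntegrable; fun_prop) fun x _ => ?_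
      have h3 : fu η t x ≤ Real.exp (-((x - t) / η)) + Real.exp (-((1 - x) / η)) := by
        unfold fu
        have a1 := Real.exp_pos (-((x - t) / η))
        have a2 := Real.exp_pos (-((1 - x) / η))
        exact max_le ((min_le_right _ _).trans (by linarith)) (by linarith)
      have h4 : 0 ≤ fu η t x := (Real.exp_pos _).le.trans (le_max_right _ _)
      calc fu η t x * g x ≤ fu η t x * M := mul_le_mul_of_nonneg_left (hM x) h4
        _ ≤ (Real.exp (-((x - t) / η)) + Real.exp (-((1 - x) / η))) * M := mul_le_mul_of_nonneg_right h3 hM0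
        _ = _ := by ring
    refine h2.trans ?_
    rw [intervalIntegral.integral_add (by apply Continuous.intervalIntegrable; fun_prop)
      (by apply Continuous.intervalIntegrable; fun_prop), intervalIntegral.integral_const_mul,
      intervalIntegral.integral_const_mul]
    exact add_le_add (mul_le_mul_of_nonneg_left (exp_int hη t 1) hM0) (mul_le_mul_of_nonneg_left (exp_int' hη t 1) hM0)
  linarith

lemma int_fl {g : ℝ → ℝ} (hg : Continuous g) (hg0 : ∀ t, 0 ≤ g t) {M : ℝ} (hM0 : 0 ≤ M) (hM : ∀ t, g t ≤ M) {η t : ℝ}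
    (hη : 0 < η) (h0 : 0 ≤ t) (h1 : t ≤ 1) : (∫ x in (0:ℝ)..t, g x) - 2 * M * η ≤ ∫ x in (0:ℝ)..1, fl η t x * g x := by
  have hi : ∀ a b, IntervalIntegrable (fun x => fl η t x * g x) volume a b := fun a b =>
    ((fl_cont η t).mul hg).intervalIntegrable a b
  rw [← intervalIntegral.integral_add_adjacent_intervals (hi 0 t) (hi t 1)]
  have hnn : ∀ x, 0 ≤ x → 0 ≤ fl η t x := by
    intro x hx
    unfold fl
    have h2 : Real.exp (-(x / η)) ≤ 1 := by
      rw [Real.exp_le_one_iff]
      have : 0 ≤ x / η := by positivity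
      linarith
    exact mul_nonneg (by linarith) (le_max_left _ _)
  have e2 : 0 ≤ ∫ x in t..1, fl η t x * g x :=
    intervalIntegral.integral_nonneg h1 fun x hx => mul_nonneg (hnn x (h0.trans hx.1)) (hg0 x)
  have e1 : (∫ x in (0:ℝ)..t, g x) ≤ (∫ x in (0:ℝ)..t, fl η t x * g x) + (M * η + M * η) := by
    have h2 : ∫ x in (0:ℝ)..t, g x ≤ ∫ x in (0:ℝ)..t, (fl η t x * g x +
        (M * Real.exp (-((x - 0) / η)) + M * Real.exp (-((t - x) / η)))) := by
      refine intervalIntegral.integral_mono_on h0 (hg.intervalIntegrable 0 t) ?_ fun x hx => ?_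
      · apply Continuous.intervalIntegrable
        have := fl_cont η t
        fun_prop
      have h3 : 1 ≤ fl η t x + (Real.exp (-((x - 0) / η)) + Real.exp (-((t - x) / η))) := by
        unfold fl
        rw [sub_zero]
        have a1 := Real.exp_pos (-(x / η))
        have a2 := Real.exp_pos (-((t - x) / η))
        have a3 : Real.exp (-(x / η)) ≤ 1 := by
          rw [Real.exp_le_one_iff]
          have : 0 ≤ x / η := div_nonneg hx.1 hη.le
          linarith
        have a4 := mul_le_mul_of_nonneg_left (le_max_right 0 (1 - Real.exp (-((t - x) / η))))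
          (by linarith : 0 ≤ 1 - Real.exp (-(x / η)))
        have a5 : 0 < Real.exp (-(x / η)) * Real.exp (-((t - x) / η)) := mul_pos a1 a2
        nlinarith
      have h4 := hg0 x
      have h5 := hM x
      have h6 : 0 ≤ Real.exp (-((x - 0) / η)) + Real.exp (-((t - x) / η)) := by positivity
      calc g x = 1 * g x := (one_mul _).symm
        _ ≤ (fl η t x + (Real.exp (-((x - 0) / η)) + Real.exp (-((t - x) / η)))) * g x :=
            mul_le_mul_of_nonneg_right h3 h4
        _ = fl η t x * g x + (Real.exp (-((x - 0) / η)) + Real.exp (-((t - x) / η))) * g x := by ring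
        _ ≤ fl η t x * g x + (Real.exp (-((x - 0) / η)) + Real.exp (-((t - x) / η))) * M :=
            add_le_add le_rfl (mul_le_mul_of_nonneg_left h5 h6)
        _ = _ := by ring
    refine h2.trans ?_
    rw [intervalIntegral.integral_add (hi 0 t) (by apply Continuous.intervalIntegrable; fun_prop),
      intervalIntegral.integral_add (by apply Continuous.intervalIntegrable; fun_prop)
      (by apply Continuous.intervalIntegrable; fun_prop), intervalIntegral.integral_const_mul,
      intervalIntegral.integral_const_mul]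
    exact add_le_add le_rfl (add_le_add (mul_le_mul_of_nonneg_left (exp_int hη 0 t) hM0)
      (mul_le_mul_of_nonneg_left (exp_int' hη 0 t) hM0))
  linarith

lemma bdd_of_per {g : ℝ → ℝ} (hg : Continuous g) (hper : ∀ t, g (t + 1) = g t) : ∃ M : ℝ, 0 ≤ M ∧ ∀ t, g t ≤ M := by
  obtain ⟨M, hM⟩ := (isCompact_Icc (a := (0:ℝ)) (b := 1)).bddAbove_image hg.continuousOn
  refine ⟨max M 0, le_max_right _ _, fun t => ?_⟩
  have hp : Function.Periodic g 1 := hper
  have h1 : g t = g (Int.fract t) := by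
    have h2 := hp.sub_zsmul_eq (x := t) ⌊t⌋
    rw [← h2]
    congr 1
    rw [zsmul_eq_mul, mul_one]
    exact (Int.self_sub_floor t)
  rw [h1]
  exact (hM ⟨Int.fract t, ⟨Int.fract_nonneg t, (Int.fract_lt_one t).le⟩, rfl⟩).trans (le_max_left _ _)

lemma A_tendsto {u : ℕ → ℝ} {g : ℝ → ℝ} (hg : Continuous g) (hg0 : ∀ t, 0 ≤ g t) {M : ℝ} (hM0 : 0 ≤ M) (hM : ∀ t, g t ≤ M)
    (h : Pool.Agent.Helper59.MF.HasLaw u g) {t : ℝ} (h0 : 0 ≤ t) (h1 : t ≤ 1) :
    Tendsto (fun N => A u N t) atTop (𝓝 (∫ x in (0:ℝ)..t, g x)) := by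
  rw [Metric.tendsto_atTop]
  intro ε hε
  set η : ℝ := ε / (4 * (M + 1)) with hη
  have hη0 : 0 < η := by positivity
  have hηM : 2 * M * η < ε := by
    rw [hη]
    have : 2 * M * (ε / (4 * (M + 1))) = ε * (M / (2 * (M + 1))) := by field_simp; ring
    rw [this]
    have h2 : M / (2 * (M + 1)) < 1 := by
      rw [div_lt_one (by positivity)]
      linarith
    nlinarith
  have hu := law_f h (fu_cont η t) (fu_01 hη0 h0)
  have hl := law_f h (fl_cont η t) (fl_01 hη0 h1)
  have hu' := int_fu hg hg0 hM0 hM hη0 h0 h1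
  have hl' := int_fl hg hg0 hM0 hM hη0 h0 h1
  have e1 := hu.eventually (gt_mem_nhds (show (∫ x in (0:ℝ)..1, fu η t x * g x) < (∫ x in (0:ℝ)..t, g x) + ε by linarith))
  have e2 := hl.eventually (lt_mem_nhds (show (∫ x in (0:ℝ)..t, g x) - ε < ∫ x in (0:ℝ)..1, fl η t x * g x by linarith))
  obtain ⟨N₀, hN₀⟩ := eventually_atTop.1 (e1.and e2)
  refine ⟨N₀, fun N hN => ?_⟩
  obtain ⟨h3, h4⟩ := hN₀ N hN
  have h5 : A u N t ≤ (∑ n ∈ Finset.range N, fu η t (Int.fract (u n))) / N := by
    rw [A_eq]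
    exact div_le_div_of_nonneg_right (Finset.sum_le_sum fun n _ => ind_le_fu hη0) (Nat.cast_nonneg N)
  have h6 : (∑ n ∈ Finset.range N, fl η t (Int.fract (u n))) / N ≤ A u N t := by
    rw [A_eq]
    exact div_le_div_of_nonneg_right (Finset.sum_le_sum fun n _ => fl_le_ind hη0 (Int.fract_nonneg _)) (Nat.cast_nonneg N)
  rw [Real.dist_eq, abs_lt]
  constructor <;> linarith

/-- uniform convergence -/
lemma A_unif {u : ℕ → ℝ} {g : ℝ → ℝ} (hg : Continuous g) (hg0 : ∀ t, 0 ≤ g t) {M : ℝ} (hM0 : 0 ≤ M) (hM : ∀ t, g t ≤ M)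
    (h : Pool.Agent.Helper59.MF.HasLaw u g) {ε : ℝ} (hε : 0 < ε) :
    ∀ᶠ N in atTop, ∀ t : ℝ, 0 ≤ t → t ≤ 1 → |A u N t - ∫ x in (0:ℝ)..t, g x| ≤ ε := by
  obtain ⟨K, hK⟩ := exists_nat_gt (M / (ε / 2))
  have hK0 : (0:ℝ) < K := lt_of_le_of_lt (by positivity) hK
  have hK1 : 0 < K := by exact_mod_cast hK0
  have hMK : M / K ≤ ε / 2 := by
    rw [div_lt_iff₀ (by positivity)] at hK
    rw [div_le_iff₀ hK0]
    linarith
  have h1 : ∀ᶠ N in atTop, ∀ j ∈ Finset.range (K + 1), |A u N (j / K) - ∫ x in (0:ℝ)..(j / K), g x| < ε / 2 := by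
    rw [Filter.eventually_all_finset]
    intro j hj
    have hjK : (j : ℝ) ≤ K := by exact_mod_cast Nat.lt_succ_iff.1 (Finset.mem_range.1 hj)
    have h2 := A_tendsto hg hg0 hM0 hM h (t := j / K) (by positivity) (by rw [div_le_one hK0]; exact hjK)
    have h3 := (Metric.tendsto_nhds.1 h2) (ε / 2) (by positivity)
    simpa only [Real.dist_eq] using h3
  have hG : ∀ s t : ℝ, s ≤ t → (∫ x in (0:ℝ)..t, g x) - (∫ x in (0:ℝ)..s, g x) ≤ M * (t - s) ∧
      0 ≤ (∫ x in (0:ℝ)..t, g x) - (∫ x in (0:ℝ)..s, g x) := by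
    intro s t hst
    rw [intervalIntegral.integral_interval_sub_left (hg.intervalIntegrable _ _) (hg.intervalIntegrable _ _)]
    refine ⟨?_, intervalIntegral.integral_nonneg hst fun x _ => hg0 x⟩
    have := intervalIntegral.integral_mono_on hst (hg.intervalIntegrable s t) ((continuous_const (y := M)).intervalIntegrable (μ := volume) s t)
      fun x _ => hM x
    rw [intervalIntegral.integral_const, smul_eq_mul] at this
    linarith
  filter_upwards [h1] with N hN t h0 h1
  -- the grid interval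
  set j : ℕ := ⌊t * K⌋₊ with hj
  have hj1 : (j : ℝ) ≤ t * K := Nat.floor_le (by positivity)
  have hj2 : t * K < j + 1 := Nat.lt_floor_add_one _
  have hjK : j ≤ K := by
    have : (j : ℝ) ≤ K := hj1.trans (mul_le_of_le_one_left hK0.le h1)
    exact_mod_cast this
  have hjt : (j : ℝ) / K ≤ t := by rwa [div_le_iff₀ hK0]
  have a1 := hN j (Finset.mem_range.2 (by omega))
  have a2 := hG _ _ hjt
  have a3 := A_mono u N hjt
  have a4 : M * (t - j / K) ≤ ε / 2 := by
    have : t - j / K ≤ 1 / K := by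
      rw [sub_le_iff_le_add, ← add_div, le_div_iff₀ hK0]
      linarith
    calc M * (t - j / K) ≤ M * (1 / K) := mul_le_mul_of_nonneg_left this hM0
      _ = M / K := by ring
      _ ≤ ε / 2 := hMK
  have b1 := abs_lt.1 a1
  rw [abs_le]
  refine ⟨by linarith [a2.1], ?_⟩
  rcases Nat.lt_or_ge j K with h5 | h5
  · have hjt' : t ≤ ((j + 1 : ℕ) : ℝ) / K := by
      rw [le_div_iff₀ hK0]
      push_cast
      linarith
    have c1 := hN (j + 1) (Finset.mem_range.2 (by omega))
    have c2 := hG _ _ hjt'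
    have c3 := A_mono u N hjt'
    have c4 : M * (((j + 1 : ℕ) : ℝ) / K - t) ≤ ε / 2 := by
      have : ((j + 1 : ℕ) : ℝ) / K - t ≤ 1 / K := by
        rw [sub_le_iff_le_add, div_le_iff₀ hK0, add_mul, one_div, inv_mul_cancel₀ hK0.ne']
        push_cast
        linarith
      calc M * (((j + 1 : ℕ) : ℝ) / K - t) ≤ M * (1 / K) := mul_le_mul_of_nonneg_left this hM0
        _ = M / K := by ring
        _ ≤ ε / 2 := hMK
    have d1 := abs_lt.1 c1
    linarith [c2.1]
  · have h6 : t = (j : ℝ) / K := by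
      have h7 : j = K := le_antisymm hjK h5
      rw [h7, div_self hK0.ne']
      rw [h7] at hj1
      have : (K:ℝ) * 1 ≤ K * t := by linarith
      exact le_antisymm h1 (le_of_mul_le_mul_left this hK0)
    rw [h6]
    linarith

end Pool.Agent.Helper24.GPL

namespace Pool.Agent.Helper18.GPL

open Pool.Agent.Helper78.KD (disc)
open Pool.Agent.Helper24.GPL

/-- discrepancy of the law `g(t) dt` -/
noncomputable def discLaw (g : ℝ → ℝ) : ℝ :=
  sSup ((fun z : ℝ × ℝ => |(∫ t in z.1..z.2, g t) - (z.2 - z.1)|) '' {z | 0 ≤ z.1 ∧ z.1 ≤ z.2 ∧ z.2 ≤ 1})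

theorem disc_of_law {u : ℕ → ℝ} {g : ℝ → ℝ} (hg : Continuous g) (hper : ∀ t, g (t + 1) = g t) (hg0 : ∀ t, 0 ≤ g t)
    (h1 : ∫ t in (0:ℝ)..1, g t = 1) (h : Pool.Agent.Helper59.MF.HasLaw u g) : Tendsto (disc u) atTop (𝓝 (discLaw g)) := by
  obtain ⟨M, hM0, hM⟩ := bdd_of_per hg hper
  rw [Metric.tendsto_atTop]
  intro ε hε
  obtain ⟨N₀, hN₀⟩ := eventually_atTop.1 (A_unif hg hg0 hM0 hM h (show 0 < ε / 4 by positivity))
  refine ⟨N₀, fun N hN => ?_⟩
  have hA := hN₀ N hN
  set G : ℝ → ℝ := fun t => ∫ x in (0:ℝ)..t, g x with hG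
  have hGsub : ∀ α β : ℝ, (∫ t in α..β, g t) = G β - G α := fun α β =>
    (intervalIntegral.integral_interval_sub_left (hg.intervalIntegrable _ _) (hg.intervalIntegrable _ _)).symm
  have hG01 : ∀ t, 0 ≤ t → t ≤ 1 → 0 ≤ G t ∧ G t ≤ 1 := by
    intro t h2 h3
    refine ⟨intervalIntegral.integral_nonneg h2 fun x _ => hg0 x, ?_⟩
    have h4 : 0 ≤ ∫ x in t..1, g x := intervalIntegral.integral_nonneg h3 fun x _ => hg0 x
    have h5 := hGsub t 1
    have h6 : G 1 = 1 := h1
    rw [h5, h6] at h4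
    linarith
  -- the two values differ by at most `ε / 2`
  have key : ∀ α β : ℝ, 0 ≤ α → α ≤ β → β ≤ 1 →
      abs (abs ((A u N β - A u N α) - (β - α)) - abs ((G β - G α) - (β - α))) ≤ ε / 2 := by
    intro α β h2 h3 h4
    refine (abs_abs_sub_abs_le _ _).trans ?_
    have h5 := hA α h2 (h3.trans h4)
    have h6 := hA β (h2.trans h3) h4
    have h7 : A u N β - A u N α - (β - α) - (G β - G α - (β - α)) = (A u N β - G β) - (A u N α - G α) := by ring
    rw [h7]
    have := abs_sub (A u N β - G β) (A u N α - G α)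
    linarith
  have bd1 : BddAbove ((fun z : ℝ × ℝ => |(∫ t in z.1..z.2, g t) - (z.2 - z.1)|) '' {z | 0 ≤ z.1 ∧ z.1 ≤ z.2 ∧ z.2 ≤ 1}) := by
    refine ⟨2, ?_⟩
    rintro _ ⟨⟨α, β⟩, ⟨h2, h3, h4⟩, rfl⟩
    simp only at h2 h3 h4 ⊢
    rw [hGsub]
    have h5 := hG01 α h2 (h3.trans h4)
    have h6 := hG01 β (h2.trans h3) h4
    rw [abs_le]
    constructor <;> linarith [h5.1, h5.2, h6.1, h6.2]
  have ne1 : ((fun z : ℝ × ℝ => |(∫ t in z.1..z.2, g t) - (z.2 - z.1)|) '' {z | 0 ≤ z.1 ∧ z.1 ≤ z.2 ∧ z.2 ≤ 1}).Nonempty :=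
    ⟨_, ⟨((0:ℝ), (1:ℝ)), ⟨le_rfl, zero_le_one, le_rfl⟩, rfl⟩⟩
  set S : Set ℝ := {r : ℝ | ∃ α β : ℝ, 0 ≤ α ∧ α < β ∧ β ≤ 1 ∧ r =
    |(((Finset.range N).filter (fun n => α ≤ Int.fract (u n) ∧ Int.fract (u n) < β)).card : ℝ) / N - (β - α)|} with hS
  have bd2 : BddAbove S := by
    refine ⟨2 + ε / 2, ?_⟩
    rintro _ ⟨α, β, h2, h3, h4, rfl⟩
    rw [A_sub u N h3.le]
    have h5 := hG01 α h2 (h3.le.trans h4)
    have h6 := hG01 β (h2.trans h3.le) h4
    have h7 := (abs_le.1 (key α β h2 h3.le h4)).2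
    have h8 : |(G β - G α) - (β - α)| ≤ 2 := by
      rw [abs_le]
      constructor <;> linarith [h5.1, h5.2, h6.1, h6.2]
    linarith
  have ne2 : S.Nonempty := ⟨_, 0, 1, le_rfl, zero_lt_one, le_rfl, rfl⟩
  have hd : disc u N = sSup S := rfl
  have u1 : disc u N ≤ discLaw g + ε / 2 := by
    rw [hd]
    refine csSup_le ne2 ?_
    rintro _ ⟨α, β, h2, h3, h4, rfl⟩
    rw [A_sub u N h3.le]
    have h5 := (abs_le.1 (key α β h2 h3.le h4)).2
    have h6 : |(G β - G α) - (β - α)| ≤ discLaw g := by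
      refine le_csSup bd1 ⟨(α, β), ⟨h2, h3.le, h4⟩, ?_⟩
      simp only
      rw [hGsub]
    linarith
  have u2 : discLaw g ≤ disc u N + ε / 2 := by
    refine csSup_le ne1 ?_
    rintro _ ⟨⟨α, β⟩, ⟨h2, h3, h4⟩, rfl⟩
    simp only at h2 h3 h4 ⊢
    rw [hGsub]
    rcases eq_or_lt_of_le h3 with h5 | h5
    · rw [h5, sub_self, sub_self, sub_self, abs_zero]
      have h6 : 0 ≤ disc u N := by
        rw [hd]
        obtain ⟨r, hr⟩ := ne2
        refine le_trans ?_ (le_csSup bd2 hr)
        obtain ⟨α, β, -, -, -, rfl⟩ := hr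
        exact abs_nonneg _
      linarith
    · have h6 := (abs_le.1 (key α β h2 h3 h4)).1
      have h7 : |(A u N β - A u N α) - (β - α)| ≤ disc u N := by
        rw [hd]
        refine le_csSup bd2 ⟨α, β, h2, h5, h4, ?_⟩
        rw [A_sub u N h3]
      linarith
  rw [Real.dist_eq, abs_lt]
  constructor <;> linarith

end Pool.Agent.Helper18.GPL
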